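import Pool.Agent.H6.NB.Targets

/-!
# The hybrid argument (HYB) and its copy form (CPY)
-/

set_option autoImplicit false

namespace Pool.Agent.H62.NB

open Finset Function

section HYB

variable {Ω : Type} [Fintype Ω] [DecidableEq Ω] {T : Ω → Type} [∀ s, Fintype (T s)]
  [∀ s, DecidableEq (T s)]

/-- Resampling one coordinate. -/
lemma resample (s0 : Ω) (μ : T s0 → ℝ) (hμ : ∑ p, μ p = 1) (g : (∀ s, T s) → ℝ) :
    ∑ P, g P = ∑ P : (∀ s, T s), μ (P s0) * ∑ p, g (update P s0 p) := by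
  have h1 : ∑ P : (∀ s, T s), μ (P s0) * ∑ p, g (update P s0 p) =
      ∑ x : (∀ s, T s) × T s0, μ (x.1 s0) * g (update x.1 s0 x.2) := by
    rw [Fintype.sum_prod_type]
    exact sum_congr rfl fun P _ => mul_sum _ _ _
  have h2 : ∑ x : (∀ s, T s) × T s0, μ (x.1 s0) * g (update x.1 s0 x.2) =
      ∑ x : (∀ s, T s) × T s0, μ x.2 * g x.1 := by
    refine sum_bij' (fun x _ => (update x.1 s0 x.2, x.1 s0))
      (fun x _ => (update x.1 s0 x.2, x.1 s0)) ?_ ?_ ?_ ?_ ?_
    all_goals simp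
  rw [h1, h2, Fintype.sum_prod_type]
  refine sum_congr rfl fun P _ => ?_
  change g P = ∑ y, μ y * g P
  rw [← sum_mul, hμ, one_mul]

/-- The mixed weight. -/
def W (θ : (∀ s, T s) → Ω → Bool) (m : Bool → ∀ s, T s → ℝ) (A : Finset Ω)
    (P : ∀ s, T s) : ℝ :=
  ∏ s, (if s ∈ A then m (θ P s) s (P s) else m false s (P s))

/-- The mixed weight without one factor. -/
def R (θ : (∀ s, T s) → Ω → Bool) (m : Bool → ∀ s, T s → ℝ) (A : Finset Ω) (s0 : Ω)
    (P : ∀ s, T s) : ℝ :=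
  ∏ s ∈ univ.erase s0, (if s ∈ A then m (θ P s) s (P s) else m false s (P s))

lemma W_mem (θ : (∀ s, T s) → Ω → Bool) (m : Bool → ∀ s, T s → ℝ) (A : Finset Ω) (s0 : Ω)
    (h0 : s0 ∈ A) (P : ∀ s, T s) : W θ m A P = m (θ P s0) s0 (P s0) * R θ m A s0 P := by
  unfold W R
  rw [← mul_prod_erase univ _ (mem_univ s0), if_pos h0]

lemma W_erase (θ : (∀ s, T s) → Ω → Bool) (m : Bool → ∀ s, T s → ℝ) (A : Finset Ω) (s0 : Ω)
    (P : ∀ s, T s) : W θ m (A.erase s0) P = m false s0 (P s0) * R θ m A s0 P := by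
  unfold W R
  rw [← mul_prod_erase univ _ (mem_univ s0), if_neg (notMem_erase s0 A)]
  congr 1
  refine prod_congr rfl fun s hs => ?_
  have hne := ne_of_mem_erase hs
  by_cases h : s ∈ A
  · rw [if_pos h, if_pos (mem_erase.2 ⟨hne, h⟩)]
  · rw [if_neg h, if_neg (fun h' => h (mem_of_mem_erase h'))]

lemma R_update (lev : Ω → ℕ) (θ : (∀ s, T s) → Ω → Bool) (m : Bool → ∀ s, T s → ℝ)
    (hθ : ∀ P P' s, (∀ s', lev s' < lev s → P s' = P' s') → θ P s = θ P' s)
    (A : Finset Ω) (s0 : Ω) (hmax : ∀ s ∈ A, lev s ≤ lev s0) (P : ∀ s, T s) (p : T s0) :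
    R θ m A s0 (update P s0 p) = R θ m A s0 P := by
  unfold R
  refine prod_congr rfl fun s hs => ?_
  have hne := ne_of_mem_erase hs
  rw [update_of_ne hne]
  by_cases h : s ∈ A
  · rw [if_pos h, if_pos h, hθ (update P s0 p) P s]
    intro s' hs'
    refine update_of_ne ?_ _ _
    rintro rfl
    exact absurd (hmax s h) (by omega)
  · rw [if_neg h, if_neg h]

lemma step_eq (lev : Ω → ℕ) (θ : (∀ s, T s) → Ω → Bool) (m : Bool → ∀ s, T s → ℝ)
    (h1 : ∀ b s, ∑ p, m b s p = 1)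
    (hθ : ∀ P P' s, (∀ s', lev s' < lev s → P s' = P' s') → θ P s = θ P' s)
    (A : Finset Ω) (s0 : Ω) (h0 : s0 ∈ A) (hmax : ∀ s ∈ A, lev s ≤ lev s0)
    (F : (∀ s, T s) → ℝ) :
    ∑ P, W θ m A P * F P - ∑ P, W θ m (A.erase s0) P * F P =
      ∑ P, W θ m (A.erase s0) P *
        ∑ p, (m (θ P s0) s0 p - m false s0 p) * F (update P s0 p) := by
  rw [← sum_sub_distrib, resample s0 (m false s0) (h1 false s0)]
  refine sum_congr rfl fun P _ => ?_
  rw [W_erase, mul_assoc]
  congr 1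
  rw [mul_sum]
  refine sum_congr rfl fun p _ => ?_
  rw [W_mem θ m A s0 h0, W_erase, R_update lev θ m hθ A s0 hmax, update_self,
    hθ (update P s0 p) P s0]
  · ring
  · intro s' hs'
    refine update_of_ne ?_ _ _
    rintro rfl
    omega

lemma W_nonneg (θ : (∀ s, T s) → Ω → Bool) (m : Bool → ∀ s, T s → ℝ)
    (h0 : ∀ b s p, 0 ≤ m b s p) (A : Finset Ω) (P : ∀ s, T s) : 0 ≤ W θ m A P := by
  unfold W
  refine prod_nonneg fun s _ => ?_
  split_ifs <;> exact h0 _ _ _

lemma W_empty_sum (θ : (∀ s, T s) → Ω → Bool) (m : Bool → ∀ s, T s → ℝ)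
    (h1 : ∀ b s, ∑ p, m b s p = 1) : ∑ P, W θ m ∅ P = 1 := by
  have : ∀ P : (∀ s, T s), W θ m ∅ P = ∏ s, m false s (P s) := by
    intro P; unfold W; simp
  simp only [this]
  rw [← Fintype.prod_sum]
  simp [h1]

lemma exists_max (lev : Ω → ℕ) (A : Finset Ω) (h : A.Nonempty) :
    ∃ s0 ∈ A, ∀ s ∈ A, lev s ≤ lev s0 := A.exists_max_image lev h

lemma W_sum (lev : Ω → ℕ) (θ : (∀ s, T s) → Ω → Bool) (m : Bool → ∀ s, T s → ℝ)
    (h1 : ∀ b s, ∑ p, m b s p = 1)
    (hθ : ∀ P P' s, (∀ s', lev s' < lev s → P s' = P' s') → θ P s = θ P' s) :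
    ∀ n : ℕ, ∀ A : Finset Ω, A.card = n → ∑ P, W θ m A P = 1 := by
  intro n
  induction n with
  | zero =>
    intro A hA
    rw [card_eq_zero] at hA
    subst hA
    exact W_empty_sum θ m h1
  | succ n ih =>
    intro A hA
    obtain ⟨s0, hs0, hmax⟩ := exists_max lev A (card_pos.1 (by omega))
    have h := step_eq lev θ m h1 hθ A s0 hs0 hmax (fun _ => 1)
    have h' : ∀ P : (∀ s, T s), ∑ p, (m (θ P s0) s0 p - m false s0 p) = 0 := by
      intro P
      rw [sum_sub_distrib, h1, h1, sub_self]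
    simp only [mul_one, h', mul_zero, sum_const_zero] at h
    have := ih (A.erase s0) (by rw [card_erase_of_mem hs0]; omega)
    linarith

lemma hyb_aux (lev : Ω → ℕ) (θ : (∀ s, T s) → Ω → Bool) (m : Bool → ∀ s, T s → ℝ)
    (F : (∀ s, T s) → ℝ) (η : Ω → ℝ)
    (h0 : ∀ b s p, 0 ≤ m b s p) (h1 : ∀ b s, ∑ p, m b s p = 1)
    (hθ : ∀ P P' s, (∀ s', lev s' < lev s → P s' = P' s') → θ P s = θ P' s)
    (hη : ∀ P s, |∑ p, (m true s p - m false s p) * F (update P s p)| ≤ η s) :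
    ∀ n : ℕ, ∀ A : Finset Ω, A.card = n →
      |∑ P, W θ m A P * F P - ∑ P, W θ m ∅ P * F P| ≤ ∑ s ∈ A, η s := by
  intro n
  induction n with
  | zero =>
    intro A hA
    rw [card_eq_zero] at hA
    subst hA
    simp
  | succ n ih =>
    intro A hA
    obtain ⟨s0, hs0, hmax⟩ := exists_max lev A (card_pos.1 (by omega))
    have h := step_eq lev θ m h1 hθ A s0 hs0 hmax F
    have hc : (A.erase s0).card = n := by rw [card_erase_of_mem hs0]; omega
    have hi := ih (A.erase s0) hc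
    have hb : |∑ P, W θ m A P * F P - ∑ P, W θ m (A.erase s0) P * F P| ≤ η s0 := by
      rw [h]
      calc |∑ P, W θ m (A.erase s0) P *
              ∑ p, (m (θ P s0) s0 p - m false s0 p) * F (update P s0 p)|
          ≤ ∑ P, |W θ m (A.erase s0) P *
              ∑ p, (m (θ P s0) s0 p - m false s0 p) * F (update P s0 p)| :=
            abs_sum_le_sum_abs _ _
        _ ≤ ∑ P, W θ m (A.erase s0) P * η s0 := by
            refine sum_le_sum fun P _ => ?_
            rw [abs_mul, abs_of_nonneg (W_nonneg θ m h0 _ P)]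
            refine mul_le_mul_of_nonneg_left ?_ (W_nonneg θ m h0 _ P)
            cases hb : θ P s0 with
            | false =>
              have : (0 : ℝ) ≤ η s0 := le_trans (abs_nonneg _) (hη P s0)
              simpa using this
            | true => exact hη P s0
        _ = η s0 := by
            rw [← sum_mul, W_sum lev θ m h1 hθ n _ hc, one_mul]
    rw [← add_sum_erase A η hs0]
    calc |∑ P, W θ m A P * F P - ∑ P, W θ m ∅ P * F P|
        = |(∑ P, W θ m A P * F P - ∑ P, W θ m (A.erase s0) P * F P) +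
            (∑ P, W θ m (A.erase s0) P * F P - ∑ P, W θ m ∅ P * F P)| := by
          congr 1; ring
      _ ≤ _ := abs_add_le _ _
      _ ≤ _ := add_le_add hb hi

end HYB

/-- HYB: the hybrid argument. -/
theorem hyb : Pool.Agent.H6.NB.T_HYB := by
  intro Ω _ _ T _ _ lev θ m F η h0 h1 hθ hη
  have h := hyb_aux lev θ m F η h0 h1 hθ hη (Fintype.card Ω) univ rfl
  have e1 : ∀ P : (∀ s, T s), W θ m univ P = ∏ s, m (θ P s) s (P s) := by
    intro P; unfold W; simp
  have e2 : ∀ P : (∀ s, T s), W θ m ∅ P = ∏ s, m false s (P s) := by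
    intro P; unfold W; simp
  simpa only [e1, e2] using h

/-- CPY: independent copies. -/
theorem cpy : Pool.Agent.H6.NB.T_CPY := by
  intro N V _ _ a b F η ha hb ha1 hb1 hη
  have h := hyb (Fin N) (fun _ => V) (fun _ => 0) (fun _ _ => true)
    (fun c _ p => if c then a p else b p) F (fun _ => η)
    (by intro c s p; cases c <;> simp [ha, hb])
    (by intro c s; cases c <;> simp [ha1, hb1])
    (by intro P P' s _; rfl)
    (by intro P s; simpa using hη P s)
  simp only [if_true, Bool.false_eq_true, if_false, sum_const, card_univ, Fintype.card_fin,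
    nsmul_eq_mul] at h
  rw [← sum_sub_distrib] at h
  simp only [← sub_mul] at h
  exact h

end Pool.Agent.H62.NB
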