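import Pool.Agent.H6.NB.Targets

namespace Pool.Agent.H62.NB

open Finset Pool.Agent.H6.NB

theorem cho : T_CHO := by
  intro q r k hq hk
  rcases Nat.eq_zero_or_pos r with hr | hr
  · subst hr; simp
  have h1 : (k + 1 - r) ^ r ≤ k.descFactorial r := Nat.pow_sub_le_descFactorial k r
  have h2 : 4 * q * r ≤ k + 1 - r := by
    have : r ≤ q * r := Nat.le_mul_of_pos_left r hq
    have h3 : 5 * q * r = 4 * q * r + q * r := by ring
    omega
  have h3 : (4 * q * r) ^ r ≤ k.descFactorial r := le_trans (Nat.pow_le_pow_left h2 r) h1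
  rw [Nat.descFactorial_eq_factorial_mul_choose] at h3
  have h4 : (4 * q) ^ r * r.factorial ≤ (4 * q * r) ^ r := by
    rw [mul_pow (4 * q) r r]
    exact Nat.mul_le_mul_left _ (Nat.factorial_le_pow r)
  have h5 : (4 * q) ^ r * r.factorial ≤ k.choose r * r.factorial := by
    rw [mul_comm (k.choose r)]
    exact le_trans h4 h3
  exact Nat.le_of_mul_le_mul_right h5 (Nat.factorial_pos r)

theorem fib : T_FIB := by
  intro E X I _ _ _ P pw L xo nx q hpw0 hL hstep r
  induction r with
  | zero =>
    intro e'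
    rw [pow_zero, Finset.card_le_one]
    intro a ha b hb
    rw [Finset.mem_filter] at ha hb
    have ha2 : a.2 = ∅ := Finset.card_eq_zero.mp ha.2.1
    have hb2 : b.2 = ∅ := Finset.card_eq_zero.mp hb.2.1
    have e1 := ha.2.2
    have e2 := hb.2.2
    rw [ha2, hpw0] at e1
    rw [hb2, hpw0] at e2
    exact Prod.ext (e1.trans e2.symm) (ha2.trans hb2.symm)
  | succ r ih =>
    intro e'
    set A := P.filter fun p => p.2.card = r + 1 ∧ pw p.1 p.2 = e' with hA
    have hch : ∀ p ∈ A, ∃ i ∈ L e', xo i ∈ p.2 ∧ (p.1, p.2.erase (xo i)) ∈ P ∧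
        pw p.1 (p.2.erase (xo i)) = nx i e' := by
      intro p hp
      rw [hA, Finset.mem_filter] at hp
      obtain ⟨i, hi, h1, h2, h3⟩ := hstep p.1 p.2 hp.1 (by
        rw [← Finset.card_pos, hp.2.1]; omega)
      rw [hp.2.2] at hi h3
      exact ⟨i, hi, h1, h2, h3⟩
    rcases A.eq_empty_or_nonempty with hAe | ⟨p0, hp0⟩
    · rw [hAe, Finset.card_empty]; exact Nat.zero_le _
    haveI : Nonempty I := ⟨(hch p0 hp0).choose⟩
    choose! f hf1 hf2 hf3 hf4 using hch
    have hmaps : ∀ p ∈ A, (⟨f p, (p.1, p.2.erase (xo (f p)))⟩ : Σ _ : I, E × Finset X) ∈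
        (L e').sigma fun i => P.filter fun p => p.2.card = r ∧ pw p.1 p.2 = nx i e' := by
      intro p hp
      rw [Finset.mem_sigma]
      refine ⟨hf1 p hp, ?_⟩
      rw [Finset.mem_filter]
      refine ⟨hf3 p hp, ?_, hf4 p hp⟩
      rw [hA, Finset.mem_filter] at hp
      have hp' : p ∈ A := by rw [hA, Finset.mem_filter]; exact hp
      simp only
      rw [Finset.card_erase_of_mem (hf2 p hp'), hp.2.1]
      rfl
    have hinj : Set.InjOn (fun p => (⟨f p, (p.1, p.2.erase (xo (f p)))⟩ : Σ _ : I, E × Finset X))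
        (A : Set (E × Finset X)) := by
      intro p hp p' hp' h
      simp only [Sigma.mk.injEq, heq_eq_eq, Prod.mk.injEq] at h
      obtain ⟨h1, h2, h3⟩ := h
      refine Prod.ext h2 ?_
      rw [← Finset.insert_erase (hf2 p hp), ← Finset.insert_erase (hf2 p' hp'), h3, h1]
    have h1 := Finset.card_le_card_of_injOn _ hmaps hinj
    refine le_trans h1 ?_
    rw [Finset.card_sigma]
    calc ∑ i ∈ L e', (P.filter fun p => p.2.card = r ∧ pw p.1 p.2 = nx i e').card
        ≤ ∑ _i ∈ L e', q ^ r := Finset.sum_le_sum fun i _ => ih _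
      _ = (L e').card * q ^ r := by rw [Finset.sum_const, smul_eq_mul]
      _ ≤ q * q ^ r := Nat.mul_le_mul_right _ (hL e')
      _ = q ^ (r + 1) := by rw [pow_succ, mul_comm]

theorem tur_aux {α : Type} [DecidableEq α] (R : α → α → Prop) [DecidableRel R] (D : ℕ) (n : ℕ) :
    ∀ S : Finset α, S.card ≤ n → (∀ x ∈ S, (S.filter (R x)).card ≤ D) →
    ∃ T ⊆ S, S.card ≤ (2 * D + 1) * T.card ∧ ∀ x ∈ T, ∀ y ∈ T, x ≠ y → ¬ R x y := by
  induction n with
  | zero =>
    intro S hS _
    have : S = ∅ := Finset.card_eq_zero.mp (Nat.le_zero.mp hS)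
    subst this
    exact ⟨∅, Finset.Subset.refl _, by simp, by simp⟩
  | succ n ih =>
    intro S hS hR
    rcases S.eq_empty_or_nonempty with h | h
    · subst h
      exact ⟨∅, Finset.Subset.refl _, by simp, by simp⟩
    -- a vertex of small in-degree
    obtain ⟨x, hx, hin⟩ : ∃ x ∈ S, (S.filter (fun y => R y x)).card ≤ D := by
      by_contra hcon
      push Not at hcon
      have h1 : ∑ x ∈ S, (S.filter (fun y => R y x)).card = ∑ y ∈ S, (S.filter (R y)).card := by
        simp_rw [Finset.card_filter]
        rw [Finset.sum_comm]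
      have h2 : ∑ _x ∈ S, D < ∑ x ∈ S, (S.filter (fun y => R y x)).card :=
        Finset.sum_lt_sum_of_nonempty h hcon
      have h3 : ∑ y ∈ S, (S.filter (R y)).card ≤ ∑ _y ∈ S, D := Finset.sum_le_sum hR
      omega
    set B := insert x (S.filter (R x) ∪ S.filter (fun y => R y x)) with hB
    have hBS : B ⊆ S := by
      intro y hy
      rw [hB, Finset.mem_insert, Finset.mem_union, Finset.mem_filter, Finset.mem_filter] at hy
      rcases hy with rfl | hy | hy
      · exact hx
      · exact hy.1
      · exact hy.1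
    have hBc : B.card ≤ 2 * D + 1 := by
      refine le_trans (Finset.card_insert_le _ _) ?_
      have := Finset.card_union_le (S.filter (R x)) (S.filter (fun y => R y x))
      have := hR x hx
      omega
    have hxB : x ∈ B := Finset.mem_insert_self _ _
    have hlt : (S \ B).card < S.card :=
      Finset.card_lt_card ⟨Finset.sdiff_subset, fun h' => by
        have := h' hx
        rw [Finset.mem_sdiff] at this
        exact this.2 hxB⟩
    obtain ⟨T, hTS, hTc, hTR⟩ := ih (S \ B) (by omega) (fun y hy => by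
      refine le_trans (Finset.card_le_card ?_) (hR y (Finset.mem_sdiff.mp hy).1)
      exact Finset.filter_subset_filter _ Finset.sdiff_subset)
    have hxT : x ∉ T := fun h' => (Finset.mem_sdiff.mp (hTS h')).2 hxB
    refine ⟨insert x T, ?_, ?_, ?_⟩
    · intro y hy
      rcases Finset.mem_insert.mp hy with rfl | hy
      · exact hx
      · exact (Finset.mem_sdiff.mp (hTS hy)).1
    · rw [Finset.card_insert_of_notMem hxT]
      have h1 : S.card = (S \ B).card + B.card := by
        rw [← Finset.card_sdiff_add_card_inter S B, Finset.inter_eq_right.mpr hBS]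
      rw [h1, Nat.mul_add, Nat.mul_one]
      omega
    · intro y hy z hz hyz
      rcases Finset.mem_insert.mp hy with hy' | hy'
      · rcases Finset.mem_insert.mp hz with hz' | hz'
        · exact absurd (hy'.trans hz'.symm) hyz
        · intro h'
          rw [hy'] at h'
          have h1 := Finset.mem_sdiff.mp (hTS hz')
          exact h1.2 (Finset.mem_insert_of_mem (Finset.mem_union_left _
            (Finset.mem_filter.mpr ⟨h1.1, h'⟩)))
      · rcases Finset.mem_insert.mp hz with hz' | hz'
        · intro h'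
          rw [hz'] at h'
          have h1 := Finset.mem_sdiff.mp (hTS hy')
          exact h1.2 (Finset.mem_insert_of_mem (Finset.mem_union_right _
            (Finset.mem_filter.mpr ⟨h1.1, h'⟩)))
        · exact hTR y hy' z hz' hyz

theorem tur : T_TUR := by
  intro α _ S R _ D h
  exact tur_aux R D S.card S le_rfl h

end Pool.Agent.H62.NB
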